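import Pool.Agent.Helper52.SmoothPrimes.General
import Pool.Agent.Helper40.EKDyadic

/-!
# Many primes `r` in a residue class with `r + 1` dividing a small number

`smooth_primes`: for all `B` and `C` there are `M ≥ 2` and a finite set `R` of primes
`r ≡ 3 (mod 4)`, `r > B`, with `r + 1 ∣ M` and `C log M ≤ |R|`.
-/

set_option autoImplicit false

open Finset Filter

namespace Pool.Agent.Helper52.SmoothPrimes

/-- Primes in a coprime residue class have positive upper relative density. -/
theorem frequently_class {D : ℕ} (hD : 0 < D) (b : ℕ) (hb : Nat.Coprime b D) :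
    ∃ᶠ y : ℕ in atTop, (1 / (30 * (D.totient : ℝ))) * y / Real.log y ≤
      (((Finset.range (y + 1)).filter (fun p => p.Prime ∧ p % D = b % D)).card : ℝ) := by
  classical
  rw [Filter.frequently_atTop]
  intro a
  obtain ⟨j, hj, hcard⟩ := Pool.Agent.Helper40.EK.exists_dyadic_primes hD b hb (max a 1)
  have hja : a ≤ j := (le_max_left _ _).trans hj
  have hj1 : 1 ≤ j := (le_max_right _ _).trans hj
  have hj1' : (1 : ℝ) ≤ j := by exact_mod_cast hj1
  have hφ : (0 : ℝ) < (D.totient : ℝ) := by exact_mod_cast Nat.totient_pos.mpr hD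
  refine ⟨2 ^ (j + 1), ?_, ?_⟩
  · have := Nat.lt_two_pow_self (n := j + 1)
    show a ≤ 2 ^ (j + 1)
    omega
  · have h1 : (((Finset.Ioc (2^j) (2^(j+1))).filter (fun p => p.Prime ∧ p % D = b % D)).card : ℝ) ≤
        (((Finset.range (2 ^ (j + 1) + 1)).filter (fun p => p.Prime ∧ p % D = b % D)).card : ℝ) := by
      have : (Finset.Ioc (2^j) (2^(j+1))).filter (fun p => p.Prime ∧ p % D = b % D) ⊆
          (Finset.range (2 ^ (j + 1) + 1)).filter (fun p => p.Prime ∧ p % D = b % D) := by
        intro p hp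
        rw [Finset.mem_filter, Finset.mem_Ioc] at hp
        rw [Finset.mem_filter, Finset.mem_range]
        exact ⟨by omega, hp.2⟩
      exact_mod_cast Finset.card_le_card this
    refine le_trans ?_ (hcard.trans h1)
    push_cast
    have h2 : Real.log ((2 : ℝ) ^ (j + 1)) = (j + 1) * Real.log 2 := by
      rw [Real.log_pow]; push_cast; ring
    rw [h2]
    have h3 := Real.log_two_gt_d9
    rw [div_le_div_iff₀ (by positivity) (by positivity)]
    have h4 : (0 : ℝ) < 2 ^ j := by positivity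
    have e : 1 / (30 * (D.totient : ℝ)) * 2 ^ (j + 1) * (10 * (D.totient : ℝ) * j) =
        2 ^ j * (2 / 3 * j) := by
      field_simp
      ring
    rw [e]
    apply mul_le_mul_of_nonneg_left _ h4.le
    nlinarith

theorem smooth_primes_class {D : ℕ} (hD : 0 < D) (b : ℕ) (hb : Nat.Coprime b D) (B : ℕ) (C : ℝ) :
    ∃ (M : ℕ) (T : Finset ℕ), 2 ≤ M ∧
    (∀ r ∈ T, (r.Prime ∧ r % D = b % D) ∧ B < r ∧ (r + 1) ∣ M) ∧
      C * (1 + Real.log M) ≤ T.card := by
  classical
  have hφ : (0 : ℝ) < (D.totient : ℝ) := by exact_mod_cast Nat.totient_pos.mpr hD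
  exact smooth_primes_add {p : ℕ | p.Prime ∧ p % D = b % D} (fun r hr => hr.1)
    (1 / (30 * (D.totient : ℝ))) (by positivity) (frequently_class hD b hb) B C

theorem smooth_primes (B : ℕ) (C : ℝ) : ∃ M : ℕ, 2 ≤ M ∧ ∃ R : Finset ℕ,
    (∀ r ∈ R, r.Prime ∧ r % 4 = 3 ∧ B < r ∧ (r + 1) ∣ M) ∧ C * Real.log M ≤ R.card := by
  obtain ⟨M, T, hM, hT, hcard⟩ := smooth_primes_class (D := 4) (by norm_num) 3 (by decide) B
    (max C 0)
  refine ⟨M, hM, T, fun r hr => ?_, ?_⟩
  · obtain ⟨⟨h1, h2⟩, h3, h4⟩ := hT r hr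
    exact ⟨h1, by simpa using h2, h3, h4⟩
  · have hl : 0 ≤ Real.log M := Real.log_nonneg (by exact_mod_cast (by omega : 1 ≤ M))
    have h1 : C * Real.log M ≤ max C 0 * (1 + Real.log M) := by
      have h2 : C * Real.log M ≤ max C 0 * Real.log M :=
        mul_le_mul_of_nonneg_right (le_max_left _ _) hl
      have h3 : 0 ≤ max C 0 := le_max_right _ _
      nlinarith
    exact h1.trans hcard

end Pool.Agent.Helper52.SmoothPrimes
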