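import Pool.Agent.Helper52.SmoothPrimes.Comb

/-!
# Few primes `r` are such that `r + u` has a prime factor above `2^j / (K j^2)`
-/

set_option autoImplicit false

open Finset Filter

namespace Pool.Agent.Helper52.SmoothPrimes

open Pool.Agent.Helper44

lemma log2_le (n : ℕ) (hn : 1 ≤ n) : (Nat.log 2 n : ℝ) ≤ 2 * Real.log n := by
  have h1 : (Nat.log 2 n : ℝ) ≤ Real.logb 2 n := Real.natLog_le_logb n 2
  have hl : 0 ≤ Real.log n := Real.log_nonneg (by exact_mod_cast hn)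
  have h2 : Real.logb 2 n ≤ 2 * Real.log n := by
    unfold Real.logb
    rw [div_le_iff₀ (Real.log_pos (by norm_num))]
    have := Real.log_two_gt_d9
    nlinarith
  linarith

/-- For large `j` there is `z ≤ 2^(j/2)` (beyond any fixed bound) such that few primes `r`,
`z < r < 2^(j+1)`, are such that `r + u` has a prime factor above `2^j / (K j^2)`. -/
theorem rough_small (u : ℤ) (hu : u = 1 ∨ u = -1) (K : ℕ) (hK : 1 ≤ K) (A : ℝ) (hA1 : 1 ≤ A)
    (B : ℕ) : ∀ᶠ j : ℕ in atTop, ∃ z : ℕ, B ≤ z ∧ z ≤ 2 ^ (j / 2) ∧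
    ((rough u j (2 ^ j / (K * j ^ 2)) z).card : ℝ) ≤ 2 ^ j / (A * (j : ℝ)) := by
  obtain ⟨C1, C2, hC1, hC2, hpb⟩ := pair_bound
  set D : ℝ := C1 * (25 * 192 ^ 2) + C2 with hD
  have hA0 : 0 < A := by linarith
  have hDpos : 0 < D := by positivity
  have hK0 : (1 : ℝ) ≤ K := by exact_mod_cast hK
  have hlogt : Tendsto (fun j : ℕ => Real.log (j : ℝ)) atTop atTop :=
    Real.tendsto_log_atTop.comp tendsto_natCast_atTop_atTop
  have e1 : ∀ᶠ j : ℕ in atTop, (24 * A * D + 200 + 200 * B) * (Real.log j) ^ 5 ≤ j := by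
    have h := (Real.isLittleO_pow_log_id_atTop (n := 5)).def
      (c := 1 / (24 * A * D + 200 + 200 * B)) (by positivity)
    have h' := tendsto_natCast_atTop_atTop (R := ℝ).eventually h
    filter_upwards [h', eventually_ge_atTop 1] with j hj hj1
    have hj1' : (1 : ℝ) ≤ j := by exact_mod_cast hj1
    have hl : 0 ≤ Real.log (j : ℝ) := Real.log_nonneg hj1'
    simp only [id, Real.norm_eq_abs] at hj
    rw [abs_of_nonneg (by positivity), abs_of_nonneg (by positivity), one_div,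
      ← div_eq_inv_mul, le_div_iff₀ (by positivity)] at hj
    linarith
  have e2 : ∀ᶠ j : ℕ in atTop, 2 * Real.log (18 * K) + 10 ≤ Real.log j :=
    hlogt.eventually_ge_atTop _
  have e3 : ∀ᶠ j : ℕ in atTop, 6 * A * (K : ℝ) * 2 ^ 16 * (j : ℝ) ^ 19 ≤ 2 ^ (j / 2) := by
    have h := tendsto_pow_const_div_const_pow_of_one_lt 19 (r := (2 : ℝ)) (by norm_num)
    have hhalf : Tendsto (fun j : ℕ => j / 2) atTop atTop :=
      Filter.tendsto_atTop_atTop.mpr fun b => ⟨2 * b, fun a ha => by omega⟩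
    have h2 := (h.comp hhalf).eventually (gt_mem_nhds
      (show (0 : ℝ) < 1 / (6 * A * (K : ℝ) * 2 ^ 16 * 3 ^ 19) by positivity))
    filter_upwards [h2, eventually_ge_atTop 2] with j hj hj2
    simp only [Function.comp] at hj
    have h3 : (j : ℝ) ≤ 3 * ((j / 2 : ℕ) : ℝ) := by
      have : j ≤ 3 * (j / 2) := by omega
      exact_mod_cast this
    have h4 : (j : ℝ) ^ 19 ≤ 3 ^ 19 * ((j / 2 : ℕ) : ℝ) ^ 19 := by
      rw [← mul_pow]
      exact pow_le_pow_left₀ (by positivity) h3 19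
    rw [div_lt_div_iff₀ (by positivity) (by positivity)] at hj
    calc 6 * A * (K : ℝ) * 2 ^ 16 * (j : ℝ) ^ 19 ≤
          6 * A * (K : ℝ) * 2 ^ 16 * (3 ^ 19 * ((j / 2 : ℕ) : ℝ) ^ 19) := by gcongr
      _ = ((j / 2 : ℕ) : ℝ) ^ 19 * (6 * A * (K : ℝ) * 2 ^ 16 * 3 ^ 19) := by ring
      _ ≤ 1 * 2 ^ (j / 2) := hj.le
      _ = 2 ^ (j / 2) := one_mul _
  filter_upwards [e1, e2, e3, eventually_ge_atTop 4] with j h1 h2 h3 hj4
  -- notation
  set x : ℝ := Real.log j with hx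
  set l : ℕ := Nat.log 2 j + 1 with hl
  set s : ℕ := j / (16 * l) with hs
  have hj0 : j ≠ 0 := by omega
  have hj4' : (4 : ℝ) ≤ j := by exact_mod_cast hj4
  have hjpos : (0 : ℝ) < j := by linarith
  have hx10 : 10 ≤ x := by
    have : 0 ≤ Real.log (18 * K) := Real.log_nonneg (by linarith)
    linarith
  have hl1 : (l : ℝ) ≤ 3 * x := by
    have := log2_le j (by omega)
    rw [hl]; push_cast
    linarith
  have hl0 : 1 ≤ l := by omega
  have hl0' : (1 : ℝ) ≤ l := by exact_mod_cast hl0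
  have hjl : j < 2 ^ l := Nat.lt_pow_succ_log_self (by norm_num) j
  have hlj : 2 ^ l ≤ 2 * j := by
    rw [hl, pow_succ]
    have := Nat.pow_log_le_self 2 hj0
    omega
  have hx5 : x ≤ x ^ 5 := by
    have : (1 : ℝ) ≤ x ^ 4 := one_le_pow₀ (by linarith)
    nlinarith
  have hB0 : (0 : ℝ) ≤ B := Nat.cast_nonneg B
  have h200 : 200 * x + 200 * B * x ≤ j := by
    have h5 : 0 ≤ 24 * A * D * x ^ 5 := by positivity
    have h6 : (B : ℝ) * x ≤ B * x ^ 5 := mul_le_mul_of_nonneg_left hx5 hB0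
    nlinarith
  have hBx : 0 ≤ (B : ℝ) * x := by positivity
  have h32 : 32 * (l : ℝ) ≤ j := by linarith
  have hs16 : 16 * l * s ≤ j := Nat.mul_div_le _ _
  have hs1 : (j : ℝ) / (32 * l) ≤ s := by
    have h5 : j < (s + 1) * (16 * l) := by
      have := Nat.lt_mul_div_succ j (show 0 < 16 * l by omega)
      rw [mul_comm] at this
      exact this
    have h6 : (j : ℝ) < ((s : ℝ) + 1) * (16 * l) := by exact_mod_cast h5
    rw [div_le_iff₀ (by positivity)]
    nlinarith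
  have hs0 : 1 ≤ s := by
    have : (0 : ℝ) < s := lt_of_lt_of_le (by positivity) hs1
    exact_mod_cast this
  have hsj : s ≤ j / 2 := by
    rw [Nat.le_div_iff_mul_le (by norm_num)]
    nlinarith
  -- the sieving limit
  have hz2 : (2 : ℝ) ≤ ((2 ^ s : ℕ) : ℝ) := by
    have : 2 ^ 1 ≤ 2 ^ s := Nat.pow_le_pow_right (by norm_num) hs0
    exact_mod_cast this
  have hlogz : Real.log ((2 ^ s : ℕ) : ℝ) = s * Real.log 2 := by
    push_cast
    rw [Real.log_pow]
  have hl2a := Real.log_two_gt_d9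
  have hl2b := Real.log_two_lt_d9
  have hlz1 : (j : ℝ) / (192 * x) ≤ Real.log ((2 ^ s : ℕ) : ℝ) := by
    rw [hlogz]
    calc (j : ℝ) / (192 * x) ≤ (j : ℝ) / (64 * l) := by
          apply div_le_div_of_nonneg_left hjpos.le (by positivity)
          linarith
      _ = (j : ℝ) / (32 * l) * (1 / 2) := by field_simp; ring
      _ ≤ s * Real.log 2 := by
          apply mul_le_mul hs1 (by linarith) (by norm_num) (by positivity)
  have hlz2 : Real.log ((2 ^ s : ℕ) : ℝ) ≤ j := by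
    rw [hlogz]
    have h6 : (s : ℝ) ≤ j := by
      have : s ≤ j := by omega
      exact_mod_cast this
    nlinarith
  have hlz0 : 0 < Real.log ((2 ^ s : ℕ) : ℝ) := lt_of_lt_of_le (by positivity) hlz1
  -- sizes
  have hKj : K * j ^ 2 * 2 ^ s ≤ 2 ^ j := by
    have h5 : K * j ^ 2 ≤ 2 ^ (j / 2) := by
      have : (K : ℝ) * (j : ℝ) ^ 2 ≤ 2 ^ (j / 2) := by
        refine le_trans ?_ h3
        have h6 : (j : ℝ) ^ 2 ≤ (j : ℝ) ^ 19 := pow_le_pow_right₀ (by linarith) (by norm_num)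
        have h7 : (0 : ℝ) ≤ (j : ℝ) ^ 19 := by positivity
        calc (K : ℝ) * (j : ℝ) ^ 2 ≤ K * (j : ℝ) ^ 19 := by gcongr
          _ ≤ 6 * A * (K : ℝ) * 2 ^ 16 * (j : ℝ) ^ 19 := by nlinarith [mul_nonneg (by linarith : (0:ℝ) ≤ K) h7]
      exact_mod_cast this
    calc K * j ^ 2 * 2 ^ s ≤ 2 ^ (j / 2) * 2 ^ (j / 2) :=
          Nat.mul_le_mul h5 (Nat.pow_le_pow_right (by norm_num) hsj)
      _ = 2 ^ (j / 2 + j / 2) := by rw [pow_add]
      _ ≤ 2 ^ j := Nat.pow_le_pow_right (by norm_num) (by omega)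
  have hzw : 2 ^ s ≤ 2 ^ j / (K * j ^ 2) := by
    rw [Nat.le_div_iff_mul_le (by positivity)]
    linarith
  have hzj : 2 ^ s ≤ 2 ^ (j / 2) := Nat.pow_le_pow_right (by norm_num) hsj
  have hBz : B ≤ 2 ^ s := by
    have h5 : (B : ℝ) ≤ s := by
      refine le_trans ?_ hs1
      rw [le_div_iff₀ (by positivity)]
      have : (B : ℝ) * (32 * l) ≤ B * (96 * x) := mul_le_mul_of_nonneg_left (by linarith) hB0
      linarith
    have h6 : B ≤ s := by exact_mod_cast h5
    exact h6.trans (Nat.lt_two_pow_self (n := s)).le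
  have hL : 3 * K * j ^ 2 + 1 ≤ 2 ^ (j + 1) := by
    have h5 : 3 * (K : ℝ) * (j : ℝ) ^ 2 + 1 ≤ 2 ^ (j / 2) := by
      refine le_trans ?_ h3
      have h6 : (j : ℝ) ^ 2 ≤ (j : ℝ) ^ 19 := pow_le_pow_right₀ (by linarith) (by norm_num)
      have h7 : (1 : ℝ) ≤ (j : ℝ) ^ 19 := one_le_pow₀ (by linarith)
      have h8 : (1 : ℝ) ≤ K * (j : ℝ) ^ 19 := by nlinarith
      calc 3 * (K : ℝ) * (j : ℝ) ^ 2 + 1 ≤ 3 * (K * (j : ℝ) ^ 19) + K * (j : ℝ) ^ 19 := by
            nlinarith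
        _ ≤ 6 * A * (K : ℝ) * 2 ^ 16 * (j : ℝ) ^ 19 := by nlinarith
    have h6 : 3 * K * j ^ 2 + 1 ≤ 2 ^ (j / 2) := by exact_mod_cast h5
    exact h6.trans (Nat.pow_le_pow_right (by norm_num) (by omega))
  refine ⟨2 ^ s, hBz, hzj, ?_⟩
  refine (card_rough_le u hu j K (2 ^ s) (by omega) hK hzw hL).trans ?_
  -- bound for each m
  have hm : ∀ m ∈ Finset.Icc 1 (3 * K * j ^ 2), evCount (range (2 ^ (j + 2) / m))
        (fun n => ∀ p : ℕ, p.Prime → (p : ℝ) ≤ ((2 ^ s : ℕ) : ℝ) → ¬ bad u m p n) ≤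
      (2 : ℝ) ^ (j + 2) / m * (D * x ^ 4 / j ^ 2) + 2 ^ (j / 2) * (2 * j) ^ 16 := by
    intro m hm
    rw [Finset.mem_Icc] at hm
    have hm0 : (0 : ℝ) < m := by exact_mod_cast hm.1
    refine (hpb u ((2 ^ s : ℕ) : ℝ) m (2 ^ (j + 2) / m) (4 * l) hu hz2 hm.1).trans ?_
    apply add_le_add
    · have hN : (((2 ^ (j + 2) / m : ℕ)) : ℝ) ≤ (2 : ℝ) ^ (j + 2) / m := by
        refine Nat.cast_div_le.trans ?_
        push_cast
        exact le_rfl
      have hδ : C1 * ((Nat.log 2 (6 * m) : ℝ) + 1) ^ 2 / (Real.log ((2 ^ s : ℕ) : ℝ)) ^ 2 +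
          C2 * (Real.log ((2 ^ s : ℕ) : ℝ)) ^ 16 / 8 ^ (2 * (4 * l) + 1) ≤ D * x ^ 4 / j ^ 2 := by
        have ha : C1 * ((Nat.log 2 (6 * m) : ℝ) + 1) ^ 2 / (Real.log ((2 ^ s : ℕ) : ℝ)) ^ 2 ≤
            C1 * (25 * 192 ^ 2) * x ^ 4 / j ^ 2 := by
          have h5 : (Nat.log 2 (6 * m) : ℝ) + 1 ≤ 5 * x := by
            have h6 := log2_le (6 * m) (by omega)
            have h7 : Real.log ((6 * m : ℕ) : ℝ) ≤ Real.log (18 * K) + 2 * x := by
              have h8 : ((6 * m : ℕ) : ℝ) ≤ 18 * K * (j : ℝ) ^ 2 := by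
                have : 6 * m ≤ 18 * K * j ^ 2 := by nlinarith [hm.2]
                exact_mod_cast this
              have h9 : Real.log (18 * K * (j : ℝ) ^ 2) = Real.log (18 * K) + 2 * x := by
                rw [Real.log_mul (by positivity) (by positivity), Real.log_pow]
                norm_num [hx]
              rw [← h9]
              apply Real.log_le_log _ h8
              push_cast
              positivity
            linarith
          have h6 : ((Nat.log 2 (6 * m) : ℝ) + 1) ^ 2 ≤ (5 * x) ^ 2 :=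
            pow_le_pow_left₀ (by positivity) h5 2
          have h7 : ((j : ℝ) / (192 * x)) ^ 2 ≤ (Real.log ((2 ^ s : ℕ) : ℝ)) ^ 2 :=
            pow_le_pow_left₀ (by positivity) hlz1 2
          calc C1 * ((Nat.log 2 (6 * m) : ℝ) + 1) ^ 2 / (Real.log ((2 ^ s : ℕ) : ℝ)) ^ 2
              ≤ C1 * (5 * x) ^ 2 / ((j : ℝ) / (192 * x)) ^ 2 := by
                apply div_le_div₀ (by positivity) _ (by positivity) h7
                exact mul_le_mul_of_nonneg_left h6 hC1.le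
            _ = C1 * (25 * 192 ^ 2) * x ^ 4 / j ^ 2 := by
                field_simp
                ring
        have hb : C2 * (Real.log ((2 ^ s : ℕ) : ℝ)) ^ 16 / 8 ^ (2 * (4 * l) + 1) ≤
            C2 * x ^ 4 / j ^ 2 := by
          have h5 : (Real.log ((2 ^ s : ℕ) : ℝ)) ^ 16 ≤ (j : ℝ) ^ 16 :=
            pow_le_pow_left₀ hlz0.le hlz2 16
          have h6 : (j : ℝ) ^ 24 ≤ 8 ^ (2 * (4 * l) + 1) := by
            have h7 : j ^ 24 ≤ (2 ^ l) ^ 24 := Nat.pow_le_pow_left hjl.le 24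
            have h8 : (2 ^ l) ^ 24 ≤ 8 ^ (2 * (4 * l) + 1) := by
              have : (8 : ℕ) ^ (2 * (4 * l) + 1) = 2 ^ (3 * (2 * (4 * l) + 1)) := by
                rw [pow_mul]; norm_num
              rw [this, ← pow_mul]
              exact Nat.pow_le_pow_right (by norm_num) (by omega)
            exact_mod_cast h7.trans h8
          have h9 : (j : ℝ) ^ 16 / 8 ^ (2 * (4 * l) + 1) ≤ x ^ 4 / j ^ 2 := by
            rw [div_le_div_iff₀ (by positivity) (by positivity)]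
            have h10 : (1 : ℝ) ≤ x ^ 4 := one_le_pow₀ (by linarith)
            calc (j : ℝ) ^ 16 * j ^ 2 = (j : ℝ) ^ 18 := by ring
              _ ≤ (j : ℝ) ^ 24 := pow_le_pow_right₀ (by linarith) (by norm_num)
              _ ≤ 8 ^ (2 * (4 * l) + 1) := h6
              _ = 1 * 8 ^ (2 * (4 * l) + 1) := (one_mul _).symm
              _ ≤ x ^ 4 * 8 ^ (2 * (4 * l) + 1) := by
                  apply mul_le_mul_of_nonneg_right h10 (by positivity)
          calc C2 * (Real.log ((2 ^ s : ℕ) : ℝ)) ^ 16 / 8 ^ (2 * (4 * l) + 1)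
              ≤ C2 * (j : ℝ) ^ 16 / 8 ^ (2 * (4 * l) + 1) := by gcongr
            _ = C2 * ((j : ℝ) ^ 16 / 8 ^ (2 * (4 * l) + 1)) := by ring
            _ ≤ C2 * (x ^ 4 / j ^ 2) := mul_le_mul_of_nonneg_left h9 hC2.le
            _ = _ := by ring
        calc _ ≤ C1 * (25 * 192 ^ 2) * x ^ 4 / j ^ 2 + C2 * x ^ 4 / j ^ 2 := add_le_add ha hb
          _ = D * x ^ 4 / j ^ 2 := by rw [hD]; ring
      apply mul_le_mul hN hδ _ (by positivity)
      have : 0 ≤ Real.log ((2 ^ s : ℕ) : ℝ) := hlz0.le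
      positivity
    · have h5 : 2 * (((2 ^ s : ℕ) : ℝ) + 1) ≤ 2 ^ (s + 2) := by
        push_cast
        push_cast at hz2
        rw [pow_add]
        linarith
      calc (2 * (((2 ^ s : ℕ) : ℝ) + 1)) ^ (2 * (4 * l)) ≤ (2 ^ (s + 2)) ^ (2 * (4 * l)) :=
            pow_le_pow_left₀ (by positivity) h5 _
        _ = 2 ^ (8 * l * s) * (2 ^ l) ^ 16 := by
            rw [← pow_mul, ← pow_mul, ← pow_add]
            congr 1
            ring
        _ ≤ 2 ^ (j / 2) * (2 * j) ^ 16 := by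
            apply mul_le_mul _ _ (by positivity) (by positivity)
            · apply pow_le_pow_right₀ (by norm_num)
              rw [Nat.le_div_iff_mul_le (by norm_num)]
              calc 8 * l * s * 2 = 16 * l * s := by ring
                _ ≤ j := hs16
            · apply pow_le_pow_left₀ (by positivity)
              exact_mod_cast hlj
  refine (Finset.sum_le_sum hm).trans ?_
  rw [Finset.sum_add_distrib]
  set T : Finset ℕ := Finset.Icc 1 (3 * K * j ^ 2) with hT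
  have hharm : ∑ m ∈ T, (1 : ℝ) / m ≤ 3 * x := by
    have h5 := harmonic_le_one_add_log (3 * K * j ^ 2)
    rw [harmonic_eq_sum_Icc] at h5
    push_cast at h5
    have h6 : Real.log (3 * K * (j : ℝ) ^ 2) ≤ Real.log (18 * K) + 2 * x := by
      have h9 : Real.log (18 * K * (j : ℝ) ^ 2) = Real.log (18 * K) + 2 * x := by
        rw [Real.log_mul (by positivity) (by positivity), Real.log_pow]
        norm_num [hx]
      rw [← h9]
      apply Real.log_le_log (by positivity)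
      have : (0 : ℝ) ≤ K * (j : ℝ) ^ 2 := by positivity
      nlinarith
    have h7 : 0 ≤ Real.log (18 * K) := Real.log_nonneg (by linarith)
    have h8 : ∑ m ∈ T, (1 : ℝ) / m =
        ∑ m ∈ T, ((m : ℝ))⁻¹ := by
      simp only [one_div]
    rw [h8]
    linarith
  have hA : ∑ m ∈ T,
      (2 : ℝ) ^ (j + 2) / m * (D * x ^ 4 / j ^ 2) ≤ 2 ^ j / (2 * A * j) := by
    have h5 : ∑ m ∈ T,
        (2 : ℝ) ^ (j + 2) / m * (D * x ^ 4 / j ^ 2) =
        (2 : ℝ) ^ (j + 2) * (D * x ^ 4 / j ^ 2) * ∑ m ∈ T, (1 : ℝ) / m := by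
      rw [Finset.mul_sum]
      apply Finset.sum_congr rfl
      intro m _
      ring
    rw [h5]
    calc (2 : ℝ) ^ (j + 2) * (D * x ^ 4 / j ^ 2) * ∑ m ∈ T, (1 : ℝ) / m
        ≤ (2 : ℝ) ^ (j + 2) * (D * x ^ 4 / j ^ 2) * (3 * x) :=
          mul_le_mul_of_nonneg_left hharm (by positivity)
      _ = 2 ^ j / j * ((12 * D * x ^ 5) / j) := by
          rw [pow_add]
          field_simp
          ring
      _ ≤ 2 ^ j / j * (1 / (2 * A)) := by
          apply mul_le_mul_of_nonneg_left _ (by positivity)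
          rw [div_le_div_iff₀ hjpos (by positivity)]
          have h6 : 0 ≤ x ^ 5 := by positivity
          have h7 : 0 ≤ (B : ℝ) * x ^ 5 := by positivity
          nlinarith
      _ = _ := by field_simp
  have hB : ∑ _m ∈ T, ((2 : ℝ) ^ (j / 2) * (2 * (j : ℝ)) ^ 16) ≤
      (2 : ℝ) ^ j / (2 * A * (j : ℝ)) := by
    rw [Finset.sum_const, hT, Nat.card_Icc, nsmul_eq_mul]
    have h5 : ((3 * K * j ^ 2 + 1 - 1 : ℕ) : ℝ) = 3 * K * (j : ℝ) ^ 2 := by
      simp
    rw [h5, le_div_iff₀ (by positivity)]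
    calc 3 * K * (j : ℝ) ^ 2 * ((2 : ℝ) ^ (j / 2) * (2 * (j : ℝ)) ^ 16) * (2 * A * j)
        = (6 * A * K * 2 ^ 16 * (j : ℝ) ^ 19) * 2 ^ (j / 2) := by ring
      _ ≤ 2 ^ (j / 2) * 2 ^ (j / 2) := mul_le_mul_of_nonneg_right h3 (by positivity)
      _ = 2 ^ (j / 2 + j / 2) := by rw [pow_add]
      _ ≤ 2 ^ j := pow_le_pow_right₀ (by norm_num) (by omega)
  calc _ ≤ (2 : ℝ) ^ j / (2 * A * j) + 2 ^ j / (2 * A * j) := add_le_add hA hB
    _ = 2 ^ j / (A * j) := by field_simp; ring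

end Pool.Agent.Helper52.SmoothPrimes
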