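import Pool.Agent.Helper52.SmoothPrimes.BrunPairs

/-!
# Clean form of the pair sieve, with Mertens
-/

set_option autoImplicit false

open Finset

namespace Pool.Agent.Helper52.SmoothPrimes

open Pool.Agent.Helper44

lemma card_primeFactors_le (n : ℕ) (hn : n ≠ 0) (Q : Finset ℕ) (hQ : ∀ q ∈ Q, q.Prime ∧ q ∣ n) :
    Q.card ≤ Nat.log 2 n := by
  have h1 : 2 ^ Q.card ≤ ∏ q ∈ Q, q := by
    rw [← Finset.prod_const]
    exact Finset.prod_le_prod' fun q hq => (hQ q hq).1.two_le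
  have h2 : ∏ q ∈ Q, q ∣ n := by
    apply Finset.prod_primes_dvd
    · intro q hq; exact (hQ q hq).1.prime
    · intro q hq; exact (hQ q hq).2
  have h3 := Nat.le_of_dvd (Nat.pos_of_ne_zero hn) h2
  exact (Nat.le_log_iff_pow_le (by norm_num) hn).mpr (h1.trans h3)

/-- The number of `n < N` such that neither `n` nor `m n - u` has a prime factor `≤ z`. -/
theorem pair_bound : ∃ C1 C2 : ℝ, 0 < C1 ∧ 0 < C2 ∧ ∀ (u : ℤ) (z : ℝ) (m N k : ℕ), (u = 1 ∨ u = -1) →
    2 ≤ z → 1 ≤ m →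
    evCount (range N) (fun n => ∀ p : ℕ, p.Prime → (p : ℝ) ≤ z → ¬ bad u m p n) ≤
      (N : ℝ) * (C1 * ((Nat.log 2 (6 * m) : ℝ) + 1) ^ 2 / (Real.log z) ^ 2 +
        C2 * (Real.log z) ^ 16 / 8 ^ (2 * k + 1)) + (2 * (z + 1)) ^ (2 * k) := by
  classical
  obtain ⟨c1, C1, hc1, hC1, hM⟩ := mertens_prod
  obtain ⟨C, hC, hS⟩ := sum_primesUpTo_bounds
  refine ⟨C1 ^ 2, Real.exp (16 * C), by positivity, Real.exp_pos _, ?_⟩
  intro u z m N k hu hz hm
  have hz0 : (0 : ℝ) ≤ z := by linarith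
  have hlz : 0 < Real.log z := Real.log_pos (by linarith)
  set P := (primesUpTo z).filter (fun p => ¬ p ∣ 6 * m) with hPdef
  set Q := (primesUpTo z).filter (fun p => p ∣ 6 * m) with hQdef
  have hPmem : ∀ p ∈ P, p.Prime ∧ (p : ℝ) ≤ z ∧ ¬ p ∣ m ∧ 5 ≤ p := by
    intro p hp
    rw [hPdef, Finset.mem_filter, mem_primesUpTo hz0] at hp
    obtain ⟨⟨hpp, hpz⟩, hp6⟩ := hp
    refine ⟨hpp, hpz, fun h => hp6 (h.mul_left 6), ?_⟩
    by_contra hlt
    have h2 := hpp.two_le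
    have h5 : p = 2 ∨ p = 3 ∨ p = 4 := by omega
    rcases h5 with rfl | rfl | rfl
    · exact hp6 (Dvd.dvd.mul_right (by norm_num) m)
    · exact hp6 (Dvd.dvd.mul_right (by norm_num) m)
    · exact absurd hpp (by norm_num)
  have hb := brun_pure u hu m N k P (fun p hp => ⟨(hPmem p hp).1, (hPmem p hp).2.2.1, by
    have := (hPmem p hp).2.2.2; omega⟩)
  -- monotonicity of the event
  have hmono : evCount (range N) (fun n => ∀ p : ℕ, p.Prime → (p : ℝ) ≤ z → ¬ bad u m p n) ≤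
      evCount (range N) (fun n => ∀ p ∈ P, ¬ bad u m p n) := by
    rw [evCount_eq, evCount_eq]
    have : (range N).filter (fun n => ∀ p : ℕ, p.Prime → (p : ℝ) ≤ z → ¬ bad u m p n) ⊆
        (range N).filter (fun n => ∀ p ∈ P, ¬ bad u m p n) := by
      intro n hn
      rw [Finset.mem_filter] at hn ⊢
      exact ⟨hn.1, fun p hp => hn.2 p (hPmem p hp).1 (hPmem p hp).2.1⟩
    exact_mod_cast Finset.card_le_card this
  -- product
  have hprod : ∏ p ∈ P, (1 - 2 / (p : ℝ)) ≤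
      C1 ^ 2 * ((Nat.log 2 (6 * m) : ℝ) + 1) ^ 2 / (Real.log z) ^ 2 := by
    have h1 : ∏ p ∈ P, (1 - 2 / (p : ℝ)) ≤ (∏ p ∈ P, (1 - 1 / (p : ℝ))) ^ 2 := by
      rw [← Finset.prod_pow]
      apply Finset.prod_le_prod
      · intro p hp
        have : (5 : ℝ) ≤ p := by exact_mod_cast (hPmem p hp).2.2.2
        rw [sub_nonneg, div_le_one (by linarith)]
        linarith
      · intro p hp
        have : (5 : ℝ) ≤ p := by exact_mod_cast (hPmem p hp).2.2.2
        have h : (0 : ℝ) ≤ (1 / (p : ℝ)) ^ 2 := by positivity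
        have e : 2 / (p : ℝ) = 2 * (1 / (p : ℝ)) := by ring
        rw [e]
        nlinarith
    have h2 : (∏ q ∈ Q, (1 - 1 / (q : ℝ))) * (∏ p ∈ P, (1 - 1 / (p : ℝ))) =
        ∏ p ∈ primesUpTo z, (1 - 1 / (p : ℝ)) :=
      Finset.prod_filter_mul_prod_filter_not _ _ _
    have hQ : ∀ q ∈ Q, q.Prime ∧ q ∣ 6 * m := by
      intro q hq
      rw [hQdef, Finset.mem_filter, mem_primesUpTo hz0] at hq
      exact ⟨hq.1.1, hq.2⟩
    have h3 := prod_ge Q (fun q hq => (hQ q hq).1.two_le)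
    have h4 := card_primeFactors_le (6 * m) (by omega) Q hQ
    have h4' : (Q.card : ℝ) ≤ (Nat.log 2 (6 * m) : ℝ) := by exact_mod_cast h4
    have hPpos : 0 ≤ ∏ p ∈ P, (1 - 1 / (p : ℝ)) := by
      apply Finset.prod_nonneg
      intro p hp
      have : (5 : ℝ) ≤ p := by exact_mod_cast (hPmem p hp).2.2.2
      rw [sub_nonneg, div_le_one (by linarith)]
      linarith
    have h5 : ∏ p ∈ P, (1 - 1 / (p : ℝ)) ≤
        C1 / Real.log z * ((Nat.log 2 (6 * m) : ℝ) + 1) := by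
      have h6 := (hM z hz).2
      rw [← h2] at h6
      have hT : (0 : ℝ) < (Nat.log 2 (6 * m) : ℝ) + 1 := by positivity
      have h7 : 1 / ((Nat.log 2 (6 * m) : ℝ) + 1) ≤ ∏ q ∈ Q, (1 - 1 / (q : ℝ)) := by
        refine le_trans ?_ h3
        apply one_div_le_one_div_of_le (by positivity)
        linarith
      have h8 : 1 / ((Nat.log 2 (6 * m) : ℝ) + 1) * ∏ p ∈ P, (1 - 1 / (p : ℝ)) ≤
          C1 / Real.log z := (mul_le_mul_of_nonneg_right h7 hPpos).trans h6
      rw [one_div, inv_mul_le_iff₀ hT] at h8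
      linarith
    calc ∏ p ∈ P, (1 - 2 / (p : ℝ)) ≤ (∏ p ∈ P, (1 - 1 / (p : ℝ))) ^ 2 := h1
      _ ≤ (C1 / Real.log z * ((Nat.log 2 (6 * m) : ℝ) + 1)) ^ 2 :=
          pow_le_pow_left₀ hPpos h5 2
      _ = _ := by ring
  -- the tail
  have htail : (∑ p ∈ P, 2 / (p : ℝ)) ^ (2 * k + 1) / ((2 * k + 1).factorial : ℝ) ≤
      Real.exp (16 * C) * (Real.log z) ^ 16 / 8 ^ (2 * k + 1) := by
    set S := ∑ p ∈ P, 2 / (p : ℝ) with hSdef
    have hS0 : 0 ≤ S := Finset.sum_nonneg fun p _ => by positivity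
    have hS1 : S ≤ 2 * (Real.log (Real.log z) + C) := by
      have h1 : S ≤ ∑ p ∈ primesUpTo z, 2 / (p : ℝ) := by
        apply Finset.sum_le_sum_of_subset_of_nonneg (Finset.filter_subset _ _)
        intro p _ _
        positivity
      have h2 : ∑ p ∈ primesUpTo z, 2 / (p : ℝ) = 2 * ∑ p ∈ primesUpTo z, (1 : ℝ) / p := by
        rw [Finset.mul_sum]
        apply Finset.sum_congr rfl
        intro p _
        ring
      have h3 := (abs_le.mp (hS z hz)).2
      linarith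
    have h4 := Real.pow_div_factorial_le_exp (8 * S) (by positivity) (2 * k + 1)
    have h5 : Real.exp (8 * S) ≤ Real.exp (16 * C) * (Real.log z) ^ 16 := by
      have h6 : Real.exp (8 * S) ≤ Real.exp (16 * C + 16 * Real.log (Real.log z)) := by
        apply Real.exp_le_exp.mpr
        linarith
      refine h6.trans (le_of_eq ?_)
      rw [Real.exp_add]
      congr 1
      have : (16 : ℝ) * Real.log (Real.log z) = ((16 : ℕ) : ℝ) * Real.log (Real.log z) := by
        norm_num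
      rw [this, Real.exp_nat_mul, Real.exp_log hlz]
    rw [mul_pow] at h4
    have h8 : (0 : ℝ) < 8 ^ (2 * k + 1) := by positivity
    rw [le_div_iff₀ h8]
    calc S ^ (2 * k + 1) / ((2 * k + 1).factorial : ℝ) * 8 ^ (2 * k + 1) =
        8 ^ (2 * k + 1) * S ^ (2 * k + 1) / ((2 * k + 1).factorial : ℝ) := by ring
      _ ≤ _ := h4.trans h5
  have hcard : (P.card : ℝ) ≤ z := by
    have h1 : P.card ≤ (primesUpTo z).card := Finset.card_filter_le _ _
    have h2 : (primesUpTo z).card ≤ ⌊z⌋₊ := by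
      unfold primesUpTo
      refine (Finset.card_filter_le _ _).trans ?_
      rw [Nat.card_Ioc]
      omega
    have h3 : ((⌊z⌋₊ : ℕ) : ℝ) ≤ z := Nat.floor_le hz0
    have h4 : (P.card : ℝ) ≤ ((⌊z⌋₊ : ℕ) : ℝ) := by exact_mod_cast h1.trans h2
    linarith
  have hlast : (2 * ((P.card : ℝ) + 1)) ^ (2 * k) ≤ (2 * (z + 1)) ^ (2 * k) := by
    apply pow_le_pow_left₀ (by positivity)
    linarith
  refine hmono.trans (hb.trans ?_)
  have hN : (0 : ℝ) ≤ N := Nat.cast_nonneg N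
  have := mul_le_mul_of_nonneg_left (add_le_add hprod htail) hN
  linarith

end Pool.Agent.Helper52.SmoothPrimes
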