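import Pool.Agent.Helper44.MertensProd
import Pool.Agent.Helper44.BrunHooley

/-!
# Brun's pure sieve for the pair `n`, `m n - u` (`u = 1` or `u = -1`)
-/

set_option autoImplicit false

open Finset

namespace Pool.Agent.Helper52.SmoothPrimes

open Pool.Agent.Helper44

/-- Number of `n < N` in one residue class modulo `d`. -/
lemma count_class (N d a : ℕ) (hd : 0 < d) :
    |(((range N).filter (fun n => n ≡ a [MOD d])).card : ℝ) - (N : ℝ) / d| ≤ 1 := by
  have h := Nat.count_modEq_card N hd a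
  rw [Nat.count_eq_card_filter_range] at h
  have hd' : (0 : ℝ) < d := by exact_mod_cast hd
  have e1 : ((N / d : ℕ) : ℝ) ≤ (N : ℝ) / d := Nat.cast_div_le
  have e2 : (N : ℝ) / d < ((N / d : ℕ) : ℝ) + 1 := by
    rw [div_lt_iff₀ hd']
    have := Nat.lt_mul_div_succ N hd
    have h2 : (N : ℝ) < (d : ℝ) * ((N / d : ℕ) + 1) := by exact_mod_cast this
    linarith
  rw [h, abs_le]
  split_ifs
  · push_cast; constructor <;> linarith
  · push_cast; constructor <;> linarith

/-- The event sieved out at the prime `p`. -/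
def bad (u : ℤ) (m : ℕ) (p n : ℕ) : Prop := p ∣ n ∨ (p : ℤ) ∣ (m : ℤ) * n - u

lemma exists_class (u : ℤ) (m : ℕ) (I J : Finset ℕ) (hI : ∀ p ∈ I, p.Prime ∧ ¬ p ∣ m) :
    ∃ a, ∀ n : ℕ, ((∀ p ∈ I, (p ∈ J → p ∣ n) ∧ (p ∉ J → (p : ℤ) ∣ (m : ℤ) * n - u)) ↔
      n ≡ a [MOD ∏ p ∈ I, p]) := by
  classical
  have hb : ∀ p ∈ I, ∃ b, ∀ n : ℕ, (((p ∈ J → p ∣ n) ∧ (p ∉ J → (p : ℤ) ∣ (m : ℤ) * n - u)) ↔
      n ≡ b [MOD p]) := by
    intro p hp
    obtain ⟨hpp, hpm⟩ := hI p hp
    by_cases hJ : p ∈ J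
    · refine ⟨0, fun n => ?_⟩
      simp only [hJ, true_implies, not_true, false_implies, and_true]
      exact (Nat.modEq_zero_iff_dvd).symm
    · have : Fact p.Prime := ⟨hpp⟩
      have hm0 : (m : ZMod p) ≠ 0 := by
        rwa [Ne, ZMod.natCast_eq_zero_iff]
      refine ⟨((m : ZMod p)⁻¹ * (u : ZMod p)).val, fun n => ?_⟩
      simp only [hJ, false_implies, not_false_eq_true, true_implies, true_and]
      rw [← ZMod.intCast_zmod_eq_zero_iff_dvd, ← ZMod.natCast_eq_natCast_iff, ZMod.natCast_val,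
        ZMod.cast_id']
      push_cast
      simp only [id]
      constructor
      · intro h
        have h1 : (m : ZMod p) * n = u := sub_eq_zero.mp h
        rw [← h1, ← mul_assoc, inv_mul_cancel₀ hm0, one_mul]
      · intro h
        rw [h, ← mul_assoc, mul_inv_cancel₀ hm0, one_mul, sub_self]
  choose! b hb using hb
  have hco : Set.Pairwise (I : Set ℕ) (Function.onFun Nat.Coprime (fun p : ℕ => p)) := by
    intro p hp q hq hpq
    exact (Nat.coprime_primes (hI p hp).1 (hI q hq).1).mpr hpq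
  obtain ⟨a, ha⟩ := Nat.chineseRemainderOfFinset b (fun p : ℕ => p) I
    (fun p hp => (hI p hp).1.ne_zero) hco
  refine ⟨a, fun n => ?_⟩
  constructor
  · intro h
    have h1 : ∀ p ∈ I, n ≡ a [MOD p] := fun p hp =>
      ((hb p hp n).mp (h p hp)).trans (ha p hp).symm
    rw [Nat.modEq_iff_dvd]
    push_cast
    apply Finset.prod_dvd_of_coprime
    · intro p hp q hq hpq
      exact Nat.isCoprime_iff_coprime.mpr (hco hp hq hpq)
    · intro p hp
      exact (Nat.modEq_iff_dvd).mp (h1 p hp)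
  · intro h p hp
    apply (hb p hp n).mpr
    exact (h.of_dvd (Finset.dvd_prod_of_mem _ hp)).trans (ha p hp)

/-- The number of `n < N` divisible-or-inverse at all `p ∈ I`. -/
lemma count_bad (u : ℤ) (hu : u = 1 ∨ u = -1) (m N : ℕ) (I : Finset ℕ) (hI : ∀ p ∈ I, p.Prime ∧ ¬ p ∣ m) :
    |evCount (range N) (fun n => ∀ p ∈ I, bad u m p n) - (N : ℝ) * ∏ p ∈ I, (2 / (p : ℝ))| ≤
      2 ^ I.card := by
  classical
  rw [evCount_eq]
  have hfib := Finset.card_eq_sum_card_fiberwise
    (s := (range N).filter (fun n => ∀ p ∈ I, bad u m p n)) (t := I.powerset)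
    (f := fun n => I.filter (fun p => p ∣ n)) (by
      intro n _
      exact Finset.mem_coe.mpr (Finset.mem_powerset.mpr (Finset.filter_subset _ _)))
  have hset : ∀ J ∈ I.powerset, ∃ a,
      ((range N).filter (fun n => ∀ p ∈ I, bad u m p n)).filter
        (fun n => I.filter (fun p => p ∣ n) = J) =
      (range N).filter (fun n => n ≡ a [MOD ∏ p ∈ I, p]) := by
    intro J hJ
    rw [Finset.mem_powerset] at hJ
    obtain ⟨a, ha⟩ := exists_class u m I J hI
    refine ⟨a, ?_⟩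
    rw [Finset.filter_filter]
    apply Finset.filter_congr
    intro n _
    rw [← ha n]
    constructor
    · rintro ⟨h1, h2⟩ p hp
      constructor
      · intro hpJ
        rw [← h2] at hpJ
        exact (Finset.mem_filter.mp hpJ).2
      · intro hpJ
        rcases h1 p hp with h | h
        · exact absurd (h2 ▸ Finset.mem_filter.mpr ⟨hp, h⟩) hpJ
        · exact h
    · intro h
      refine ⟨fun p hp => ?_, ?_⟩
      · by_cases hpJ : p ∈ J
        · exact Or.inl ((h p hp).1 hpJ)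
        · exact Or.inr ((h p hp).2 hpJ)
      · ext p
        rw [Finset.mem_filter]
        constructor
        · rintro ⟨hp, hpn⟩
          by_contra hpJ
          have h3 := (h p hp).2 hpJ
          have h4 : (p : ℤ) ∣ (m : ℤ) * n := (Int.natCast_dvd_natCast.mpr hpn).mul_left _
          have h5 : (p : ℤ) ∣ u := (dvd_sub_right h4).mp h3
          have h6 : (p : ℤ) ∣ 1 := by
            rcases hu with rfl | rfl
            · exact h5
            · exact (dvd_neg).mp h5
          have h7 : p ∣ 1 := by exact_mod_cast h6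
          exact (hI p hp).1.one_lt.ne' (Nat.dvd_one.mp h7)
        · intro hpJ
          exact ⟨hJ hpJ, (h p (hJ hpJ)).1 hpJ⟩
  have hpos : 0 < ∏ p ∈ I, p := Finset.prod_pos fun p hp => (hI p hp).1.pos
  have hprod : (N : ℝ) * ∏ p ∈ I, (2 / (p : ℝ)) =
      ∑ J ∈ I.powerset, (N : ℝ) / ((∏ p ∈ I, p : ℕ) : ℝ) := by
    rw [Finset.sum_const, Finset.card_powerset, Finset.prod_div_distrib, Finset.prod_const,
      nsmul_eq_mul]
    push_cast
    ring
  rw [hfib, hprod]
  push_cast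
  rw [← Finset.sum_sub_distrib]
  refine (Finset.abs_sum_le_sum_abs _ _).trans ?_
  calc ∑ J ∈ I.powerset, |((((range N).filter (fun n => ∀ p ∈ I, bad u m p n)).filter
        (fun n => I.filter (fun p => p ∣ n) = J)).card : ℝ) - (N : ℝ) / (∏ p ∈ I, (p : ℝ))|
      ≤ ∑ J ∈ I.powerset, (1 : ℝ) := by
        apply Finset.sum_le_sum
        intro J hJ
        obtain ⟨a, ha⟩ := hset J hJ
        rw [ha]
        have := count_class N (∏ p ∈ I, p) a hpos
        push_cast at this
        exact this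
    _ = 2 ^ I.card := by
        rw [Finset.sum_const, Finset.card_powerset, nsmul_eq_mul, mul_one]
        push_cast
        rfl

/-- Brun's pure sieve. -/
theorem brun_pure (u : ℤ) (hu : u = 1 ∨ u = -1) (m N k : ℕ) (P : Finset ℕ) (hP : ∀ p ∈ P, p.Prime ∧ ¬ p ∣ m ∧ 2 ≤ p) :
    evCount (range N) (fun n => ∀ p ∈ P, ¬ bad u m p n) ≤
      (N : ℝ) * (∏ p ∈ P, (1 - 2 / (p : ℝ)) +
        (∑ p ∈ P, 2 / (p : ℝ)) ^ (2 * k + 1) / ((2 * k + 1).factorial : ℝ)) +
      (2 * ((P.card : ℝ) + 1)) ^ (2 * k) := by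
  classical
  have hev : Even (2 * k) := even_two_mul k
  have h1 : evCount (range N) (fun n => ∀ p ∈ P, ¬ bad u m p n) =
      ∑ n ∈ range N, ∏ p ∈ P, (1 - ind (bad u m) n p) := by
    rw [evCount_eq_sum]
    apply Finset.sum_congr rfl
    intro n _
    rw [prod_one_sub_ind]
  have h2 : ∑ n ∈ range N, ∏ p ∈ P, (1 - ind (bad u m) n p) ≤
      ∑ n ∈ range N, tr P (2 * k) (ind (bad u m) n) := by
    apply Finset.sum_le_sum
    intro n _
    exact prod_le_tr_even P _ (fun p _ => ind_mem _ _ _) _ hev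
  have h3 : ∑ n ∈ range N, tr P (2 * k) (ind (bad u m) n) =
      ∑ I ∈ P.powerset.filter (fun I => I.card ≤ 2 * k),
        (-1 : ℝ) ^ I.card * evCount (range N) (fun n => ∀ p ∈ I, bad u m p n) := by
    simp_rw [tr_eq_sum_filter]
    rw [Finset.sum_comm]
    apply Finset.sum_congr rfl
    intro I _
    rw [← Finset.mul_sum, evCount_eq_sum]
    congr 1
    apply Finset.sum_congr rfl
    intro n _
    rw [prod_ind]
  have h4 : ∑ I ∈ P.powerset.filter (fun I => I.card ≤ 2 * k),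
        (-1 : ℝ) ^ I.card * evCount (range N) (fun n => ∀ p ∈ I, bad u m p n) ≤
      ∑ I ∈ P.powerset.filter (fun I => I.card ≤ 2 * k),
        ((-1 : ℝ) ^ I.card * ((N : ℝ) * ∏ p ∈ I, (2 / (p : ℝ))) + 2 ^ (2 * k)) := by
    apply Finset.sum_le_sum
    intro I hI
    rw [Finset.mem_filter, Finset.mem_powerset] at hI
    have hc := count_bad u hu m N I (fun p hp => ⟨(hP p (hI.1 hp)).1, (hP p (hI.1 hp)).2.1⟩)
    have hs : |(-1 : ℝ) ^ I.card * (evCount (range N) (fun n => ∀ p ∈ I, bad u m p n) -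
        (N : ℝ) * ∏ p ∈ I, (2 / (p : ℝ)))| ≤ 2 ^ I.card := by
      rw [abs_mul, abs_pow, abs_neg, abs_one, one_pow, one_mul]
      exact hc
    have h5 : (2 : ℝ) ^ I.card ≤ 2 ^ (2 * k) := pow_le_pow_right₀ (by norm_num) hI.2
    have h6 := (abs_le.mp hs).2
    rw [mul_sub] at h6
    linarith
  have h5 : ∑ I ∈ P.powerset.filter (fun I => I.card ≤ 2 * k),
        ((-1 : ℝ) ^ I.card * ((N : ℝ) * ∏ p ∈ I, (2 / (p : ℝ))) + 2 ^ (2 * k)) =
      (N : ℝ) * tr P (2 * k) (fun p => 2 / (p : ℝ)) +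
        ((P.powerset.filter (fun I => I.card ≤ 2 * k)).card : ℝ) * 2 ^ (2 * k) := by
    rw [Finset.sum_add_distrib, Finset.sum_const, nsmul_eq_mul, tr_eq_sum_filter, Finset.mul_sum]
    congr 1
    apply Finset.sum_congr rfl
    intro I _
    ring
  have hx : ∀ p ∈ P, (0 : ℝ) ≤ 2 / (p : ℝ) ∧ 2 / (p : ℝ) ≤ 1 := by
    intro p hp
    have : (2 : ℝ) ≤ p := by exact_mod_cast (hP p hp).2.2
    constructor
    · positivity
    · rw [div_le_one (by linarith)]; exact this
  have h6 := tr_even_le P (fun p => 2 / (p : ℝ)) hx (2 * k) hev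
  have h7 := es_le_pow_div_factorial P (fun p => 2 / (p : ℝ)) (fun p hp => (hx p hp).1) (2 * k + 1)
  have h8 := card_powerset_filter_le P (2 * k)
  rw [h1]
  refine h2.trans ?_
  rw [h3]
  refine h4.trans ?_
  rw [h5, mul_pow]
  have hN : (0 : ℝ) ≤ N := Nat.cast_nonneg N
  have h9 : (N : ℝ) * tr P (2 * k) (fun p => 2 / (p : ℝ)) ≤
      (N : ℝ) * (∏ p ∈ P, (1 - 2 / (p : ℝ)) +
        (∑ p ∈ P, 2 / (p : ℝ)) ^ (2 * k + 1) / ((2 * k + 1).factorial : ℝ)) := by
    apply mul_le_mul_of_nonneg_left _ hN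
    linarith
  have h10 : ((P.powerset.filter (fun I => I.card ≤ 2 * k)).card : ℝ) * 2 ^ (2 * k) ≤
      2 ^ (2 * k) * ((P.card : ℝ) + 1) ^ (2 * k) := by
    rw [mul_comm]
    exact mul_le_mul_of_nonneg_left h8 (by positivity)
  linarith

/-- `∏ (1 - 1/q) ≥ 1/(k+1)` over a set of `k` primes (integers at least `2`). -/
lemma prod_ge (Q : Finset ℕ) (hQ : ∀ q ∈ Q, 2 ≤ q) :
    1 / ((Q.card : ℝ) + 1) ≤ ∏ q ∈ Q, (1 - 1 / (q : ℝ)) := by
  induction Q using Finset.induction_on_max with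
  | empty => simp
  | insert a s hmax ih =>
    have ha : a ∉ s := fun h => lt_irrefl _ (hmax a h)
    rw [Finset.prod_insert ha, Finset.card_insert_of_notMem ha]
    have ih' := ih (fun q hq => hQ q (Finset.mem_insert_of_mem hq))
    have ha2 : 2 ≤ a := hQ a (Finset.mem_insert_self _ _)
    have hcard : s.card + 2 ≤ a := by
      have hsub : s ⊆ Finset.Ico 2 a := by
        intro x hx
        rw [Finset.mem_Ico]
        exact ⟨hQ x (Finset.mem_insert_of_mem hx), hmax x hx⟩
      have := Finset.card_le_card hsub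
      rw [Nat.card_Ico] at this
      omega
    have hcard' : (s.card : ℝ) + 2 ≤ a := by exact_mod_cast hcard
    have hs0 : (0 : ℝ) ≤ s.card := Nat.cast_nonneg _
    have h1 : ((s.card : ℝ) + 1) / ((s.card : ℝ) + 2) ≤ 1 - 1 / (a : ℝ) := by
      rw [div_le_iff₀ (by linarith)]
      have : 1 / (a : ℝ) * ((s.card : ℝ) + 2) ≤ 1 := by
        rw [one_div, inv_mul_le_iff₀ (by linarith)]
        linarith
      nlinarith
    push_cast
    calc 1 / ((s.card : ℝ) + 1 + 1) = ((s.card : ℝ) + 1) / ((s.card : ℝ) + 2) *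
          (1 / ((s.card : ℝ) + 1)) := by
          field_simp
          ring
      _ ≤ (1 - 1 / (a : ℝ)) * ∏ q ∈ s, (1 - 1 / (q : ℝ)) := by
          apply mul_le_mul h1 ih' (by positivity)
          exact le_trans (by positivity) h1

end Pool.Agent.Helper52.SmoothPrimes
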