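import Pool.Agent.Helper52.SmoothPrimes.Bound

/-!
# Primes `r` with `r + u` having a large prime factor (`u = 1` or `u = -1`)
-/

set_option autoImplicit false

open Finset

namespace Pool.Agent.Helper52.SmoothPrimes

open Pool.Agent.Helper44

open Classical in
/-- Primes `r`, `z < r < 2^(j+1)`, such that `r + u` has a prime factor exceeding `w`. -/
noncomputable def rough (u : ℤ) (j w z : ℕ) : Finset ℕ :=
  (Finset.range (2 ^ (j + 1))).filter
    (fun r => r.Prime ∧ z < r ∧ ∃ q : ℕ, q.Prime ∧ w < q ∧ (q : ℤ) ∣ (r : ℤ) + u)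

theorem card_rough_le (u : ℤ) (hu : u = 1 ∨ u = -1) (j K z : ℕ) (hj : 1 ≤ j) (hK : 1 ≤ K)
    (hz : z ≤ 2 ^ j / (K * j ^ 2)) (hL : 3 * K * j ^ 2 + 1 ≤ 2 ^ (j + 1)) :
    ((rough u j (2 ^ j / (K * j ^ 2)) z).card : ℝ) ≤
      ∑ m ∈ Finset.Icc 1 (3 * K * j ^ 2), evCount (range (2 ^ (j + 2) / m))
        (fun n => ∀ p : ℕ, p.Prime → (p : ℝ) ≤ (z : ℝ) → ¬ bad u m p n) := by
  classical
  set w := 2 ^ j / (K * j ^ 2) with hw
  have hKj : 0 < K * j ^ 2 := by positivity
  have hsub : rough u j w z ⊆ (Finset.Icc 1 (3 * K * j ^ 2)).biUnion (fun m =>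
      ((range (2 ^ (j + 2) / m)).filter
        (fun n => ∀ p : ℕ, p.Prime → (p : ℝ) ≤ (z : ℝ) → ¬ bad u m p n)).image
          (fun n : ℕ => ((m : ℤ) * (n : ℤ) - u).toNat)) := by
    intro r hr
    unfold rough at hr
    rw [Finset.mem_filter, Finset.mem_range] at hr
    obtain ⟨hr2, hrp, hzr, q, hq, hwq, m', hm'⟩ := hr
    have hr2' := hrp.two_le
    have hq2 := hq.two_le
    have hm'0 : 0 < m' := by
      by_contra hcon
      push Not at hcon
      have h1 : (q : ℤ) * m' ≤ 0 := mul_nonpos_of_nonneg_of_nonpos (by positivity) hcon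
      rcases hu with h | h <;> omega
    obtain ⟨m, rfl⟩ := Int.eq_ofNat_of_zero_le hm'0.le
    have hm1 : 1 ≤ m := by exact_mod_cast hm'0
    have hup : q * m ≤ 2 ^ (j + 1) := by
      have h1 : ((q * m : ℕ) : ℤ) ≤ ((2 ^ (j + 1) : ℕ) : ℤ) := by
        push_cast
        rw [← hm']
        have h2 : (r : ℤ) + 1 ≤ 2 ^ (j + 1) := by exact_mod_cast hr2
        rcases hu with h | h <;> omega
      exact_mod_cast h1
    have hp2 : 2 ^ (j + 1) = 2 * 2 ^ j := by rw [pow_succ]; ring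
    have hp4 : 2 ^ (j + 2) = 4 * 2 ^ j := by rw [pow_add]; ring
    -- `m ≤ 3 K j²`
    have hmL : m ≤ 3 * K * j ^ 2 := by
      have h1 : 2 ^ j < q * (K * j ^ 2) := Nat.lt_mul_of_div_lt hwq hKj
      by_contra hcon
      push Not at hcon
      have h2 : 3 * 2 ^ j < q * m := by
        calc 3 * 2 ^ j < 3 * (q * (K * j ^ 2)) := by omega
          _ = q * (3 * K * j ^ 2) := by ring
          _ ≤ q * m := Nat.mul_le_mul_left _ hcon.le
      omega
    have hqN : q < 2 ^ (j + 2) / m := by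
      rw [Nat.lt_iff_add_one_le, Nat.le_div_iff_mul_le hm1]
      have : (q + 1) * m = q * m + m := by ring
      rw [this]
      omega
    have hr' : (m : ℤ) * q - u = r := by
      rw [mul_comm]; linarith
    rw [Finset.mem_biUnion]
    refine ⟨m, Finset.mem_Icc.mpr ⟨hm1, hmL⟩, ?_⟩
    rw [Finset.mem_image]
    refine ⟨q, ?_, ?_⟩
    · rw [Finset.mem_filter, Finset.mem_range]
      refine ⟨hqN, ?_⟩
      intro p hp hpz hb
      have hpz' : p ≤ z := by exact_mod_cast hpz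
      rcases hb with hb | hb
      · have := (Nat.prime_dvd_prime_iff_eq hp hq).mp hb
        omega
      · rw [hr'] at hb
        have h1 : p ∣ r := by exact_mod_cast hb
        have := (Nat.prime_dvd_prime_iff_eq hp hrp).mp h1
        omega
    · show ((m : ℤ) * q - u).toNat = r
      rw [hr']; simp
  have h1 := Finset.card_le_card hsub
  have h2 : ((Finset.Icc 1 (3 * K * j ^ 2)).biUnion (fun m =>
      ((range (2 ^ (j + 2) / m)).filter
        (fun n => ∀ p : ℕ, p.Prime → (p : ℝ) ≤ (z : ℝ) → ¬ bad u m p n)).image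
          (fun n : ℕ => ((m : ℤ) * (n : ℤ) - u).toNat))).card ≤ ∑ m ∈ Finset.Icc 1 (3 * K * j ^ 2),
      ((range (2 ^ (j + 2) / m)).filter
        (fun n => ∀ p : ℕ, p.Prime → (p : ℝ) ≤ (z : ℝ) → ¬ bad u m p n)).card := by
    refine Finset.card_biUnion_le.trans ?_
    exact Finset.sum_le_sum fun m _ => Finset.card_image_le
  have h3 : ((rough u j w z).card : ℝ) ≤ ∑ m ∈ Finset.Icc 1 (3 * K * j ^ 2),
      (((range (2 ^ (j + 2) / m)).filter
        (fun n => ∀ p : ℕ, p.Prime → (p : ℝ) ≤ (z : ℝ) → ¬ bad u m p n)).card : ℝ) := by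
    exact_mod_cast h1.trans h2
  refine h3.trans (le_of_eq ?_)
  apply Finset.sum_congr rfl
  intro m _
  rw [evCount_eq]

end Pool.Agent.Helper52.SmoothPrimes
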